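import Mathlib

set_option autoImplicit false
open TensorProduct MulOpposite

namespace Pool.Agent.Results.MP_ae31bd_an.Counter

section defs
variable (A : Type) [NonUnitalNormedRing A] [NormedSpace ℂ A] [IsScalarTower ℂ A A]
  [SMulCommClass ℂ A A]

/-- Every continuous derivation `A → A*` is inner; `(a·f)(c) = f(ca)`, `(f·a)(c) = f(ac)`. -/
def WeaklyAmenable : Prop :=
  ∀ D : A →L[ℂ] StrongDual ℂ A, (∀ a b c : A, D (a * b) c = D b (c * a) + D a (b * c)) →
    ∃ f : StrongDual ℂ A, ∀ a c : A, D a c = f (c * a) - f (a * c)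

end defs

section env
variable (R : Type) [Ring R] [Algebra ℂ R]

/-- The enveloping algebra `R ⊗ Rᵒᵖ` (algebraic tensor product); used with `R = A₊`. -/
abbrev Env : Type := R ⊗[ℂ] Rᵐᵒᵖ

/-- The product map `a ⊗ b ↦ ab`. -/
noncomputable def piPlus : Env R →ₗ[ℂ] R :=
  LinearMap.mul' ℂ R ∘ₗ
    TensorProduct.map LinearMap.id (opLinearEquiv ℂ).symm.toLinearMap

/-- The diagonal ideal is the linear span of products of pairs of its elements. -/
def DiagIdempotent : Prop :=
  LinearMap.ker (piPlus R) =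
    Submodule.span ℂ {z | ∃ x ∈ LinearMap.ker (piPlus R), ∃ y ∈ LinearMap.ker (piPlus R), z = x * y}

variable {R}

lemma pi_tmul (a : R) (b : Rᵐᵒᵖ) :
    piPlus R (a ⊗ₜ b) = a * b.unop := rfl

lemma pi_mul (a : R) (b : Rᵐᵒᵖ) (x : Env R) :
    piPlus R ((a ⊗ₜ b) * x) = a * piPlus R x * b.unop := by
  induction x using TensorProduct.induction_on with
  | zero => simp
  | tmul c d => simp [pi_tmul, mul_assoc]
  | add x y hx hy => simp [mul_add, add_mul, hx, hy]

lemma ker_mul (r x : Env R) (hx : x ∈ LinearMap.ker (piPlus R)) :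
    r * x ∈ LinearMap.ker (piPlus R) := by
  rw [LinearMap.mem_ker] at hx ⊢
  induction r using TensorProduct.induction_on with
  | zero => simp
  | tmul c d => rw [pi_mul, hx]; simp
  | add x y hx hy => simp [add_mul, hx, hy]

theorem idem_of_span (h : ∀ a : R,
    a ∈ Submodule.span ℂ {e : R | e * e = e}) : DiagIdempotent R := by
  set J := Submodule.span ℂ
    {z | ∃ x ∈ LinearMap.ker (piPlus R), ∃ y ∈ LinearMap.ker (piPlus R), z = x * y} with hJ
  have hJm : ∀ r : Env R, ∀ z ∈ J, r * z ∈ J := by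
    intro r z hz
    induction hz using Submodule.span_induction with
    | mem z hz =>
      obtain ⟨x, hx, y, hy, rfl⟩ := hz
      exact Submodule.subset_span ⟨r * x, ker_mul r x hx, y, hy, (mul_assoc _ _ _).symm⟩
    | zero => simp
    | add x y _ _ hx hy => rw [mul_add]; exact J.add_mem hx hy
    | smul c x _ hx => rw [mul_smul_comm]; exact J.smul_mem c hx
  have hd : ∀ a : R, (a ⊗ₜ 1 - 1 ⊗ₜ op a : Env R) ∈ J := by
    intro a
    induction h a using Submodule.span_induction with
    | mem e he =>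
      have he' : e * e = e := he
      have hk : (e ⊗ₜ 1 - 1 ⊗ₜ op e : Env R) ∈ LinearMap.ker (piPlus R) := by
        simp [pi_tmul]
      have h2 : (e ⊗ₜ 1 - 1 ⊗ₜ op e : Env R) * (e ⊗ₜ 1 - 1 ⊗ₜ op e) ∈ J :=
        Submodule.subset_span ⟨_, hk, _, hk, rfl⟩
      have h3 := hJm (e ⊗ₜ 1 - 1 ⊗ₜ op e : Env R) _ h2
      convert h3 using 1
      simp only [mul_sub, sub_mul, Algebra.TensorProduct.tmul_mul_tmul, mul_one, one_mul,
        ← op_mul, he']
      abel
    | zero => simp
    | add x y _ _ hx hy =>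
      convert J.add_mem hx hy using 1
      rw [add_tmul, op_add, tmul_add]; abel
    | smul c x _ hx =>
      convert J.smul_mem c hx using 1
      rw [smul_sub, smul_tmul', op_smul, tmul_smul]
  apply le_antisymm
  · have key : ∀ x : Env R, piPlus R x ⊗ₜ 1 - x ∈ J := by
      intro x
      induction x using TensorProduct.induction_on with
      | zero => simp
      | tmul c d =>
        convert hJm (c ⊗ₜ 1) _ (hd d.unop) using 1
        simp [mul_sub, pi_tmul]
      | add x y hx hy =>
        convert J.add_mem hx hy using 1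
        rw [map_add, add_tmul]; abel
    intro x hx
    have := key x
    rw [LinearMap.mem_ker.1 hx, zero_tmul, zero_sub] at this
    exact J.neg_mem_iff.1 this
  · rw [Submodule.span_le]
    rintro _ ⟨x, -, y, hy, rfl⟩
    exact ker_mul x y hy

end env

def B : Type := PiLp 1 (fun _ : Fin 4 => ℂ)

noncomputable instance : NormedAddCommGroup B :=
  inferInstanceAs (NormedAddCommGroup (PiLp 1 (fun _ : Fin 4 => ℂ)))
noncomputable instance : NormedSpace ℂ B :=
  inferInstanceAs (NormedSpace ℂ (PiLp 1 (fun _ : Fin 4 => ℂ)))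
instance : CompleteSpace B := inferInstanceAs (CompleteSpace (PiLp 1 (fun _ : Fin 4 => ℂ)))
instance : FiniteDimensional ℂ B :=
  inferInstanceAs (FiniteDimensional ℂ (PiLp 1 (fun _ : Fin 4 => ℂ)))

def co (u : B) (i : Fin 4) : ℂ := (show PiLp 1 (fun _ : Fin 4 => ℂ) from u) i
def mk (a x y d : ℂ) : B := (WithLp.toLp 1 ![a, x, y, d] : PiLp 1 (fun _ : Fin 4 => ℂ))

@[simp] lemma co0 (a x y d : ℂ) : co (mk a x y d) 0 = a := rfl
@[simp] lemma co1 (a x y d : ℂ) : co (mk a x y d) 1 = x := rfl
@[simp] lemma co2 (a x y d : ℂ) : co (mk a x y d) 2 = y := rfl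
@[simp] lemma co3 (a x y d : ℂ) : co (mk a x y d) 3 = d := rfl
@[simp] lemma co_add (u v : B) (i : Fin 4) : co (u + v) i = co u i + co v i := rfl
@[simp] lemma co_zero (i : Fin 4) : co 0 i = 0 := rfl
@[simp] lemma co_smul (c : ℂ) (v : B) (i : Fin 4) : co (c • v) i = c * co v i := rfl

lemma ext4 {u v : B} (h0 : co u 0 = co v 0) (h1 : co u 1 = co v 1) (h2 : co u 2 = co v 2)
    (h3 : co u 3 = co v 3) : u = v := by
  apply PiLp.ext
  intro i
  fin_cases i
  exacts [h0, h1, h2, h3]

lemma nrm (u : B) : ‖u‖ = ‖co u 0‖ + ‖co u 1‖ + ‖co u 2‖ + ‖co u 3‖ := by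
  have := PiLp.norm_eq_of_L1 (show PiLp 1 (fun _ : Fin 4 => ℂ) from u)
  rw [Fin.sum_univ_four] at this
  exact this

noncomputable instance : Mul B := ⟨fun u v => mk (co u 0 * co v 0) (co u 0 * co v 1 + co u 1 * co v 3)
  (co u 2 * co v 0 + co u 3 * co v 2) (co u 3 * co v 3)⟩

lemma mul_def (u v : B) : u * v = mk (co u 0 * co v 0) (co u 0 * co v 1 + co u 1 * co v 3)
  (co u 2 * co v 0 + co u 3 * co v 2) (co u 3 * co v 3) := rfl

noncomputable instance : NonUnitalNormedRing B :=
  { (inferInstance : NormedAddCommGroup B), (inferInstance : Mul B) with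
    left_distrib := fun a b c => by apply ext4 <;> simp [mul_def] <;> ring
    right_distrib := fun a b c => by apply ext4 <;> simp [mul_def] <;> ring
    zero_mul := fun a => by apply ext4 <;> simp [mul_def]
    mul_zero := fun a => by apply ext4 <;> simp [mul_def]
    mul_assoc := fun a b c => by apply ext4 <;> simp [mul_def] <;> ring
    norm_mul_le := fun u v => by
      rw [nrm (u * v), nrm u, nrm v]
      simp only [mul_def, co0, co1, co2, co3]
      have h1 := norm_add_le (co u 0 * co v 1) (co u 1 * co v 3)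
      have h2 := norm_add_le (co u 2 * co v 0) (co u 3 * co v 2)
      simp only [norm_mul] at *
      have := norm_nonneg (co u 0); have := norm_nonneg (co u 1)
      have := norm_nonneg (co u 2); have := norm_nonneg (co u 3)
      have := norm_nonneg (co v 0); have := norm_nonneg (co v 1)
      have := norm_nonneg (co v 2); have := norm_nonneg (co v 3)
      have : 0 ≤ ‖co u 0‖ * ‖co v 2‖ + ‖co u 0‖ * ‖co v 3‖ + ‖co u 1‖ * ‖co v 0‖ +
        ‖co u 1‖ * ‖co v 1‖ + ‖co u 1‖ * ‖co v 2‖ + ‖co u 2‖ * ‖co v 1‖ + ‖co u 2‖ * ‖co v 2‖ +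
        ‖co u 2‖ * ‖co v 3‖ + ‖co u 3‖ * ‖co v 0‖ + ‖co u 3‖ * ‖co v 1‖ := by positivity
      nlinarith }

instance : IsScalarTower ℂ B B :=
  ⟨fun c u v => by apply ext4 <;> simp [mul_def] <;> ring⟩
instance : SMulCommClass ℂ B B :=
  ⟨fun c u v => by apply ext4 <;> simp [mul_def] <;> ring⟩

noncomputable def beta : B →ₗ[ℂ] B →ₗ[ℂ] ℂ :=
  LinearMap.mk₂ ℂ (fun u v => co u 1 * co v 2 - co u 2 * co v 1)
    (fun _ _ _ => by simp; ring) (fun _ _ _ => by simp; ring)
    (fun _ _ _ => by simp; ring) (fun _ _ _ => by simp; ring)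

theorem result : ∃ (A : Type) (_ : NonUnitalNormedRing A) (_ : NormedSpace ℂ A)
    (_ : IsScalarTower ℂ A A) (_ : SMulCommClass ℂ A A),
    CompleteSpace A ∧ FiniteDimensional ℂ A ∧ DiagIdempotent (Unitization ℂ A) ∧ ¬ WeaklyAmenable A := by
  refine ⟨B, inferInstance, inferInstance, inferInstance, inferInstance, inferInstance,
    inferInstance, idem_of_span fun a => ?_, fun h => ?_⟩
  · set S := Submodule.span ℂ {e : Unitization ℂ B | e * e = e}
    have hi : ∀ u : B, u * u = u → (u : Unitization ℂ B) ∈ S := fun u hu =>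
      Submodule.subset_span (by
        show (u : Unitization ℂ B) * u = u
        rw [← Unitization.inr_mul, hu])
    have h1 : (1 : Unitization ℂ B) ∈ S := Submodule.subset_span (mul_one (1 : Unitization ℂ B))
    induction a using Unitization.ind with
    | inl_add_inr c u =>
      refine S.add_mem ?_ ?_
      · have : (Unitization.inl c : Unitization ℂ B) = c • 1 := by
          ext <;> simp
        rw [this]; exact S.smul_mem _ h1
      · have : u = (co u 0 - co u 1 - co u 2) • mk 1 0 0 0 + co u 1 • mk 1 1 0 0 +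
            co u 2 • mk 1 0 1 0 + co u 3 • mk 0 0 0 1 := by
          apply ext4 <;> simp
          ring
        rw [this]
        simp only [Unitization.inr_add, Unitization.inr_smul]
        refine S.add_mem (S.add_mem (S.add_mem ?_ ?_) ?_) ?_ <;>
          refine S.smul_mem _ (hi _ ?_) <;> apply ext4 <;> simp [mul_def]
  · let D : B →L[ℂ] StrongDual ℂ B := LinearMap.toContinuousLinearMap
      ((LinearMap.toContinuousLinearMap : (B →ₗ[ℂ] ℂ) ≃ₗ[ℂ] (B →L[ℂ] ℂ)).toLinearMap ∘ₗ beta)
    have hD : ∀ u v, D u v = co u 1 * co v 2 - co u 2 * co v 1 := fun _ _ => rfl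
    obtain ⟨f, hf⟩ := h D (fun a b c => by simp [hD, mul_def]; ring)
    have := hf (mk 0 1 0 0) (mk 0 0 1 0)
    have e : mk 0 0 1 0 * mk 0 1 0 0 = mk 0 1 0 0 * mk 0 0 1 0 := by
      apply ext4 <;> simp [mul_def]
    rw [hD, e] at this
    simp at this

end Pool.Agent.Results.MP_ae31bd_an.Counter
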